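import Pool.Agent.N754.FV.Stm
import Pool.Agent.TH143.GE.Form
import Pool.Agent.W619.PQ.Curve

/-!
Embeddings of function fields of one variable into algebraically closed fields; the canonical
degree is at least `-2`.
-/

set_option autoImplicit false

open FF Pool.Agent.W603.LV
open IntermediateField (adjoin)

namespace Pool.Agent.N342.FV

open Pool.Agent.N754.FV IntermediateField

theorem embed (k K : Type) [Field k] [Field K] [Algebra k K] [IsFF k K]
    (Ω : Type) [Field Ω] [IsAlgClosed Ω] [Algebra k Ω] (z : Ω) (hz : Transcendental k z) :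
    Nonempty (K →ₐ[k] Ω) := by
  obtain ⟨t, ht⟩ := IsFF.exists_transcendental (k := k) (K := K)
  have halg : Algebra.IsAlgebraic k⟮t⟯ K := IsFF.isAlgebraic ht
  let φ : k⟮t⟯ →ₐ[k] Ω := (k⟮z⟯.val).comp
    (((RatFunc.algEquivOfTranscendental t ht).symm.trans
      (RatFunc.algEquivOfTranscendental z hz)) : k⟮t⟯ →ₐ[k] k⟮z⟯)
  let _ : Algebra k⟮t⟯ Ω := φ.toRingHom.toAlgebra
  have _ : IsScalarTower k k⟮t⟯ Ω := IsScalarTower.of_algebraMap_eq fun x => (φ.commutes x).symm
  let ψ : K →ₐ[k⟮t⟯] Ω := IsAlgClosed.lift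
  exact ⟨ψ.restrictScalars k⟩

theorem emb : EMB := by
  intro k K _ _ _ _ _ _
  refine ⟨?_, ?_⟩
  · by_contra h
    push Not at h
    obtain ⟨t, ht⟩ := Pool.Agent.TH143.GE.rational_of_neg (k := k) (K := K) (by omega)
    have h2 := Pool.Agent.W619.PQ.canDeg_rational (k := k) (E0 := K) ht
    omega
  · rintro Ω _ _ _ ⟨z, hz⟩
    exact embed k K Ω z hz

end Pool.Agent.N342.FV
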